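import Pool.Agent.helper1.CD.Spec

/-!
# Project CD (MP_2e0e07_nt), row SPO: places with a Frobenius element in an open set
-/

set_option autoImplicit false

open NumberField IsDedekindDomain Complex Pool.Agent.CH Pool.Agent.GK

namespace Pool.Agent.CD

/-- the norm of a prime ideal over `p` is divisible by `p` -/
theorem SPO_dvd {L : Type} [Field L] [NumberField L] (P : Ideal (𝓞 L)) (hP : P.IsPrime) (p : ℕ)
    (hp : p.Prime) (hmem : (p : 𝓞 L) ∈ P) : p ∣ Ideal.absNorm P := by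
  have h1 : Ideal.absNorm P ∣ p ^ Module.finrank ℤ (𝓞 L) := by
    have h2 := Ideal.absNorm_dvd_absNorm_of_le ((Ideal.span_singleton_le_iff_mem P).2 hmem)
    have h3 : Ideal.absNorm (Ideal.span {(p : 𝓞 L)}) = p ^ Module.finrank ℤ (𝓞 L) := by
      rw [Ideal.absNorm_span_singleton, ← map_natCast (algebraMap ℤ (𝓞 L)) p, Algebra.norm_algebraMap,
        Int.natAbs_pow]
      rfl
    rwa [h3] at h2
  obtain ⟨k, -, hk⟩ := (Nat.dvd_prime_pow hp).1 h1
  rw [hk]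
  refine dvd_pow_self p (fun h0 => hP.ne_top ?_)
  rw [h0, pow_zero] at hk
  exact Ideal.absNorm_eq_one_iff.1 hk

/-- finitely many places of bounded norm -/
theorem SPO_fin (K : Type) [Field K] [NumberField K] (N : ℕ) : {v : Pl K | nv K v ≤ N}.Finite := by
  have h1 : {I : Ideal (𝓞 K) | Ideal.absNorm I ≤ N}.Finite := Ideal.finite_setOfPred_absNorm_le N
  refine Set.Finite.of_finite_image (f := fun v : Pl K => v.asIdeal) (h1.subset ?_) ?_
  · rintro _ ⟨v, hv, rfl⟩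
    exact hv
  · intro v _ w _ h
    exact HeightOneSpectrum.ext h

theorem SPO (hLOW : LOW_stmt) (hDSL : DSL_stmt) (hNBH : NBH_stmt) (hLIF : LIF_stmt) : SPO_stmt := by
  classical
  intro K _ _ O hO hne
  obtain ⟨g, hg⟩ := hne
  obtain ⟨L, hfin, hgal, hL⟩ := hNBH K O hO g hg
  have hnf : NumberField L := NumberField.of_module_finite K L
  obtain ⟨σ, hσ⟩ : ∃ σ : L ≃ₐ[K] L, σ = AlgEquiv.restrictNormalHom L g := ⟨_, rfl⟩
  obtain ⟨n, hn⟩ : ∃ n : ℝ, n = (Module.finrank K L : ℝ) := ⟨_, rfl⟩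
  have hn0 : 0 < n := by
    rw [hn]
    exact_mod_cast Module.finrank_pos
  have hlow := hLOW K L {σ} (1 / (2 * n)) (by positivity)
  obtain ⟨δ, hδ, hlow⟩ := hlow
  have hD : differentIdeal (𝓞 K) (𝓞 L) ≠ ⊥ := differentIdeal_ne_bot
  have hDN : Ideal.absNorm (differentIdeal (𝓞 K) (𝓞 L)) ≠ 0 := by
    rwa [Ne, Ideal.absNorm_eq_zero_iff]
  obtain ⟨N, hN⟩ : ∃ N : ℕ, N = Ideal.absNorm (differentIdeal (𝓞 K) (𝓞 L)) := ⟨_, rfl⟩
  obtain ⟨T, hT⟩ : ∃ T : Set (Pl K), T = {v : Pl K | nv K v ≤ N} := ⟨_, rfl⟩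
  obtain ⟨W, hW⟩ : ∃ W : Set (Pl K), W = {v | (nv K v).Prime ∧ ∃ g ∈ frob K v, g ∈ O} := ⟨_, rfl⟩
  have hTf : T.Finite := by rw [hT]; exact SPO_fin K N
  have hsub : (⋃ σ' ∈ ({σ} : Set (L ≃ₐ[K] L)), Fp K L σ') ⊆ W ∪ (T \ W) := by
    intro v hv
    rw [Set.union_diff_self]
    rw [Set.mem_iUnion₂] at hv
    obtain ⟨σ', h1, hv⟩ := hv
    rw [Set.mem_singleton_iff] at h1
    subst h1
    obtain ⟨hp, P, hP, hPv, hfr⟩ := hv
    by_cases hdiff : P ∣ differentIdeal (𝓞 K) (𝓞 L)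
    · right
      have hmem : ((nv K v : ℕ) : 𝓞 L) ∈ P := by
        have h1 : ((Ideal.absNorm (P.under (𝓞 K)) : ℕ) : 𝓞 K) ∈ P.under (𝓞 K) := Ideal.absNorm_mem _
        rw [Ideal.mem_comap, map_natCast, hPv] at h1
        exact h1
      have h1 := (SPO_dvd P hP _ hp hmem).trans (map_dvd Ideal.absNorm hdiff)
      rw [hT, Set.mem_setOf_eq, hN]
      exact Nat.le_of_dvd (Nat.pos_of_ne_zero hDN) h1
    · left
      rw [hσ] at hfr
      obtain ⟨s, hs, hsg⟩ := hLIF K L g P v hP hdiff hPv hfr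
      rw [hW]
      exact ⟨hp, s, hs, hL s hsg⟩
  obtain ⟨C, hC⟩ : ∃ C : ℝ, C = ((T \ W).ncard : ℝ) := ⟨_, rfl⟩
  have hC0 : 0 ≤ C := by rw [hC]; positivity
  refine ⟨1 / (4 * n), min δ (Real.exp (-(4 * n * C))), by positivity, lt_min hδ (Real.exp_pos _), fun s hs1 hs2 => ?_⟩
  rw [← hW]
  have hs3 : s < 1 + δ := lt_of_lt_of_le hs2 (by linarith [min_le_left δ (Real.exp (-(4 * n * C)))])
  have hs4 : s - 1 < Real.exp (-(4 * n * C)) := by linarith [min_le_right δ (Real.exp (-(4 * n * C)))]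
  have hlog : 4 * n * C ≤ -Real.log (s - 1) := by
    have h1 : Real.log (s - 1) < -(4 * n * C) := (Real.log_lt_iff_lt_exp (by linarith)).2 hs4
    linarith
  have h1 := hlow s hs1 hs3
  obtain ⟨h2, h3, h4, h5⟩ := hDSL K s hs1
  have h6 := h3 _ _ hsub
  rw [h4 W (T \ W) Set.disjoint_sdiff_right] at h6
  have h7 := h5 (T \ W) (hTf.subset Set.diff_subset)
  rw [← hC] at h7
  have h8 : (Nat.card ({σ} : Set (L ≃ₐ[K] L)) : ℝ) = 1 := by
    rw [Nat.card_unique]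
    norm_num
  rw [h8, ← hn] at h1
  have h9 : 1 / n - 1 / (2 * n) = 2 * (1 / (4 * n)) := by
    field_simp
    ring
  rw [h9] at h1
  have h10 : C ≤ 1 / (4 * n) * (-Real.log (s - 1)) := by
    calc C = 1 / (4 * n) * (4 * n * C) := by field_simp
      _ ≤ 1 / (4 * n) * (-Real.log (s - 1)) := mul_le_mul_of_nonneg_left hlog (by positivity)
  linarith

end Pool.Agent.CD
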